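import Pool.Agent.H402Z.WkNonsep
import Pool.Agent.H402Z.WkSep

/-!
The measures `ω`, `wk`, `wck` coincide on `K(H)` if `H` is separable, and `ω`, `wk` are not
equivalent on `K(H)` if `H` is not separable.
-/

set_option autoImplicit false

open scoped ENNReal NNReal

namespace Pool.Agent.Results.MP_af3abc_an.ADichotomy

open Pool.Agent.H402Z.Wk

universe u

theorem result (H : Type u) [NormedAddCommGroup H] [InnerProductSpace ℂ H] [CompleteSpace H] :
    (TopologicalSpace.SeparableSpace H → ∀ A : Set (KH H), Bornology.IsBounded A →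
      omega A = wk A ∧ wk A = wck A) ∧
    (¬ TopologicalSpace.SeparableSpace H → ∀ C : ℝ≥0, ∃ A : Set (KH H),
      A.Nonempty ∧ Bornology.IsBounded A ∧ (C : ℝ≥0∞) * wk A < omega A) := by
  refine ⟨fun hH A hA => ?_, fun hH C => ?_⟩
  · have h1 := (stdModel H).omega_le_wck hA
    have h2 := wck_le_wk hA
    have h3 := wk_le_omega A
    exact ⟨le_antisymm (h1.trans h2) h3, le_antisymm (h3.trans h1) h2⟩
  · obtain ⟨k, hk⟩ := exists_nat_ge C
    obtain ⟨A, h0, h1, h2, h3⟩ := (stdModel H).nonsep hH k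
    refine ⟨A, h0, h1, lt_of_le_of_lt ?_ h3⟩
    calc (C : ℝ≥0∞) * wk A ≤ C * 1 := by gcongr
      _ ≤ k := by rw [mul_one]; exact_mod_cast hk

end Pool.Agent.Results.MP_af3abc_an.ADichotomy
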